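import Pool.Agent.H664.EX.Stm2

set_option autoImplicit false

namespace Pool.Agent.H106.EX

open Module

theorem lat_aux (L' : Submodule ℤ (Fin 3 → ℤ)) {k l : ℕ} (b1 : Basis (Fin k) ℤ L')
    (b2 : Basis (Fin l) ℤ ((Fin 3 → ℤ) ⧸ L')) (hkl : k + l = 3) (hk : k ≠ 0) (hl : l ≠ 0) :
    ∃ b : Basis (Fin 3) ℤ (Fin 3 → ℤ), b 0 ∈ L' ∧ b 2 ∉ L' ∧
      (b 1 ∈ L' ∨ ∀ m ∈ L', ∃ c : ℤ, m = c • b 0) := by
  have key : ∀ j, Basis.sumQuot b1 b2 (Sum.inr j) ∉ L' := by
    intro j hj
    have h := Basis.sumQuot_inr b1 b2 j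
    rw [(Submodule.Quotient.mk_eq_zero L').mpr hj] at h
    exact b2.ne_zero j h.symm
  have key2 : ∀ i, Basis.sumQuot b1 b2 (Sum.inl i) ∈ L' := by
    intro i
    rw [Basis.sumQuot_inl]
    exact (b1 i).2
  rcases (by omega : (k = 1 ∧ l = 2) ∨ (k = 2 ∧ l = 1)) with ⟨rfl, rfl⟩ | ⟨rfl, rfl⟩
  · refine ⟨(Basis.sumQuot b1 b2).reindex (finSumFinEquiv (m := 1) (n := 2)), ?_, ?_, Or.inr ?_⟩
    · rw [Basis.reindex_apply]
      exact key2 0
    · rw [Basis.reindex_apply]
      exact key 1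
    · intro m hm
      refine ⟨b1.repr ⟨m, hm⟩ 0, ?_⟩
      rw [Basis.reindex_apply]
      have h := b1.sum_repr ⟨m, hm⟩
      rw [Fin.sum_univ_one] at h
      have h2 := congrArg Subtype.val h
      have e : (finSumFinEquiv (m := 1) (n := 2)).symm 0 = Sum.inl 0 := rfl
      rw [e, Basis.sumQuot_inl]
      exact h2.symm
  · refine ⟨(Basis.sumQuot b1 b2).reindex (finSumFinEquiv (m := 2) (n := 1)), ?_, ?_, Or.inl ?_⟩
    · rw [Basis.reindex_apply]
      exact key2 0
    · rw [Basis.reindex_apply]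
      exact key 0
    · rw [Basis.reindex_apply]
      exact key2 1

theorem lat : Pool.Agent.H664.EX.S_lat := by
  intro L hs hb ht
  let L' : Submodule ℤ (Fin 3 → ℤ) := AddSubgroup.toIntSubmodule L
  have hmem : ∀ m, m ∈ L' ↔ m ∈ L := fun m => Iff.rfl
  have htf : IsTorsionFree ℤ ((Fin 3 → ℤ) ⧸ L') := by
    rw [Module.isTorsionFree_iff_smul_eq_zero]
    intro k x hx
    by_cases hk : k = 0
    · exact Or.inl hk
    right
    obtain ⟨m, rfl⟩ := Submodule.Quotient.mk_surjective L' x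
    rw [← Submodule.Quotient.mk_smul, Submodule.Quotient.mk_eq_zero] at hx
    rw [Submodule.Quotient.mk_eq_zero]
    exact hs k m hk hx
  have hfree : Module.Free ℤ ((Fin 3 → ℤ) ⧸ L') := inferInstance
  let b1 := Module.finBasis ℤ L'
  let b2 := Module.finBasis ℤ ((Fin 3 → ℤ) ⧸ L')
  have hcard : finrank ℤ L' + finrank ℤ ((Fin 3 → ℤ) ⧸ L') = 3 := by
    have := finrank_eq_card_basis (Basis.sumQuot b1 b2)
    rw [Fintype.card_sum, Fintype.card_fin, Fintype.card_fin] at this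
    rw [← this]; simp
  have hk : finrank ℤ L' ≠ 0 := by
    intro h
    apply hb
    have h2 : L' = ⊥ := Submodule.finrank_eq_zero.mp h
    rw [eq_bot_iff]
    intro m hm
    have : m ∈ L' := hm
    rw [h2, Submodule.mem_bot] at this
    rw [this]; exact AddSubgroup.zero_mem _
  have hl : finrank ℤ ((Fin 3 → ℤ) ⧸ L') ≠ 0 := by
    intro h
    apply ht
    have h2 : Subsingleton ((Fin 3 → ℤ) ⧸ L') := by
      refine ⟨fun x y => ?_⟩
      apply b2.repr.injective
      ext i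
      exact absurd i.2 (by omega)
    rw [eq_top_iff]
    intro m _
    have : m ∈ L' := (Submodule.Quotient.mk_eq_zero L').mp (Subsingleton.elim _ _)
    exact this
  obtain ⟨b, h0, h2, h1⟩ := lat_aux L' b1 b2 hcard hk hl
  refine ⟨((Pi.basisFun ℤ (Fin 3)).toMatrix b).transpose,
    (b.toMatrix (Pi.basisFun ℤ (Fin 3))).transpose, ?_, ?_, ?_, ?_, ?_⟩
  · rw [← Matrix.transpose_mul, Module.Basis.toMatrix_mul_toMatrix_flip, Matrix.transpose_one]
  · rw [← Matrix.transpose_mul, Module.Basis.toMatrix_mul_toMatrix_flip, Matrix.transpose_one]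
  all_goals
    have hrow : ∀ i, ((Pi.basisFun ℤ (Fin 3)).toMatrix b).transpose i = b i := by
      intro i; funext j
      simp [Matrix.transpose_apply, Module.Basis.toMatrix_apply]
    simp only [hrow]
  · exact h0
  · exact h2
  · rcases h1 with h1 | h1
    · exact Or.inl h1
    · exact Or.inr h1

end Pool.Agent.H106.EX
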